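import Pool.Agent.R545.Mw.Final

/-!
# Clique-width: an exactly recognisable width parameter within a factor of two

The definitions used in the statement:
* `cliqueWidth G` (in `Pool.Agent.Helper856.Cw.Width`): the least `k` such that `G` is isomorphic
  to a graph built with `k` labels by the four operations of clique-width;
* `moduleWidth G` (in `Pool.Agent.R545.Mw.Defs`): the least `k` such that there is a binary tree
  whose leaves are the vertices of `G` such that, for every node `x`, the vertices below `x` have
  at most `k` different neighbourhoods outside of the set of vertices below `x`;
* `matGraph M` (in `Pool.Agent.H622R2.MatGraph`): the graph on `Fin M.length` with the (symmetrised,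
  diagonal ignored) Boolean adjacency matrix `M`;
* `InPP` (in `Pool.Agent.NPC.Classes`): the language of the codes of the inputs with the given
  property is decided by a polynomial-time Turing machine (in Mathlib's sense).
-/

namespace Pool.Agent.Results.MP_701cec_lc.FactorTwoApproximation

open Pool.Agent.NPC Pool.Agent.H622R2 Pool.Agent.Helper856.Cw Pool.Agent.R545.Mw

/-- For every fixed `c`, the graphs of module-width at most `c` are recognisable in polynomial
time; this class contains all graphs of clique-width at most `c`, and all its members have
clique-width at most `2 * c`. -/
theorem result : ∀ c : ℕ,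
    InPP (fun M : List (List Bool) => moduleWidth (matGraph M) ≤ c) ∧
    ∀ M : List (List Bool), (cliqueWidth (matGraph M) ≤ c → moduleWidth (matGraph M) ≤ c) ∧
      (moduleWidth (matGraph M) ≤ c → cliqueWidth (matGraph M) ≤ 2 * c) := by
  intro c
  refine ⟨mw_inPP c, fun M => ⟨fun h => ?_, fun h => ?_⟩⟩
  · exact (moduleWidth_le_cliqueWidth (matGraph M)).trans h
  · exact (cliqueWidth_le_two_mul (matGraph M)).trans (Nat.mul_le_mul_left 2 h)

end Pool.Agent.Results.MP_701cec_lc.FactorTwoApproximation
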